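import Pool.Agent.Helper15.DAF.Stmts2
import Pool.Agent.Helper2.DAF.SMONO

/-! DAF row CLOSEDPT. -/

open AlgebraicGeometry CategoryTheory TopologicalSpace Opposite

namespace Pool.Agent.Helper15.DAF

/-- (CLOSEDPT) -/
theorem st_CLOSEDPT : ST_CLOSEDPT := by
  intro X _ s _ V N h0 hN hadd hmul h1
  have hJ0 : JacobsonSpace (Spec (CommRingCat.of ℂ)) :=
    inferInstanceAs (JacobsonSpace (PrimeSpectrum ℂ))
  have hJ : JacobsonSpace X := LocallyOfFiniteType.jacobsonSpace s
  let I : Ideal Γ(X, V.U) :=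
    { carrier := {f | ev s V f ∈ N}
      add_mem' := by
        intro a b ha hb
        simp only [Set.mem_ofPred_eq, map_add] at ha hb ⊢
        exact hadd _ ha _ hb
      zero_mem' := by simpa using h0
      smul_mem' := by
        intro c x hx
        simp only [Set.mem_ofPred_eq, smul_eq_mul, map_mul] at hx ⊢
        exact hmul _ ((S2.mem_O s).2 ⟨c, rfl⟩) _ hx }
  have hI : I ≠ ⊤ := by
    rw [Ideal.ne_top_iff_one]
    intro h
    have h' : ev s V 1 ∈ N := h
    rw [map_one] at h'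
    exact h1 h'
  obtain ⟨M, hM, hIM⟩ := Ideal.exists_le_maximal I hI
  set p : Spec Γ(X, V.U) := (⟨M, hM.isPrime⟩ : PrimeSpectrum Γ(X, V.U)) with hp
  have hpc : IsClosed ({p} : Set (Spec Γ(X, V.U))) :=
    (PrimeSpectrum.isClosed_singleton_iff_isMaximal _).2 hM
  have hemb := V.aff.fromSpec.isOpenEmbedding
  refine ⟨V.aff.fromSpec p, ?_, ?_, ?_⟩
  · apply isClosed_singleton_of_isLocallyClosed_singleton
    rw [← Set.image_singleton]
    exact hpc.isLocallyClosed.image hemb.isInducing hemb.isOpen_range.isLocallyClosed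
  · have : V.aff.fromSpec p ∈ Set.range V.aff.fromSpec := ⟨p, rfl⟩
    rw [V.aff.range_fromSpec] at this
    exact this
  · intro a ha
    obtain ⟨f, rfl⟩ := (S2.mem_O s).1 (hN a ha)
    refine ⟨f, ?_, rfl⟩
    intro hx
    have h2 : p ∈ V.aff.fromSpec ⁻¹ᵁ X.basicOpen f := hx
    rw [V.aff.fromSpec_preimage_basicOpen] at h2
    exact h2 (hIM ha)

end Pool.Agent.Helper15.DAF
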