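import Pool.Agent.Helper2.DAF.SMONO

/-! DAF rows SGLUE and SBASIC. -/

open AlgebraicGeometry CategoryTheory TopologicalSpace Opposite

namespace Pool.Agent.Helper15.DAF

/-- (SBASIC) -/
theorem st_SBASIC : ST_SBASIC := by
  intro X _ V W x hxV hxW
  obtain ⟨f, hf, hxf⟩ := V.aff.exists_basicOpen_le (V := W) ⟨x, hxW⟩ hxV
  exact ⟨f, ⟨X.basicOpen f, V.aff.basicOpen f, ⟨⟨x, hxf⟩⟩⟩, rfl, hxf, hf⟩

/-- (SGLUE) -/
theorem st_SGLUE : ST_SGLUE := by
  intro X _ s V a h
  choose W hxW hWV hW using fun x : V.U => h x.1 x.2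
  choose f hf using fun x : V.U => (S2.mem_O s).1 (hW x)
  obtain ⟨g, hg, -⟩ := X.sheaf.existsUnique_gluing' (fun x : V.U => (W x).U) V.U
    (fun x => homOfLE (hWV x)) (fun x hx => Opens.mem_iSup.2 ⟨⟨x, hx⟩, hxW ⟨x, hx⟩⟩) f (by
      intro x y
      have hne : Nonempty ((W x).U ⊓ (W y).U : X.Opens) := by
        obtain ⟨z, hz⟩ := nonempty_preirreducible_inter (W x).U.2 (W y).U.2
          ((W x).ne.elim fun p => ⟨p.1, p.2⟩) ((W y).ne.elim fun p => ⟨p.1, p.2⟩)
        exact ⟨⟨z, hz⟩⟩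
      apply Scheme.germToFunctionField_injective X ((W x).U ⊓ (W y).U)
      have h1 := X.presheaf.germ_res_apply (homOfLE (inf_le_left : (W x).U ⊓ (W y).U ≤ (W x).U))
        (genericPoint X) ((genericPoint_spec X).mem_open_set_iff ((W x).U ⊓ (W y).U).isOpen |>.2
          (by simpa using hne.elim fun p => ⟨p.1, p.2⟩)) (f x)
      have h2 := X.presheaf.germ_res_apply (homOfLE (inf_le_right : (W x).U ⊓ (W y).U ≤ (W y).U))
        (genericPoint X) ((genericPoint_spec X).mem_open_set_iff ((W x).U ⊓ (W y).U).isOpen |>.2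
          (by simpa using hne.elim fun p => ⟨p.1, p.2⟩)) (f y)
      exact (h1.trans (hf x)).trans ((h2.trans (hf y)).symm))
  have hx0 := V.ne.some
  refine (S2.mem_O s).2 ⟨g, ?_⟩
  rw [← S2.ev_res s V (W hx0) (hWV hx0) g]
  have := hg hx0
  exact (congrArg (ev s (W hx0)) this).trans (hf hx0)

end Pool.Agent.Helper15.DAF
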